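import Pool.Agent.Lib.MP_0b8c1e_lc.PC.Main

set_option autoImplicit false

/-!
# Dense Graph Partition: consequences of the PCP theorem
-/

namespace Pool.Agent.Lib.MP_0b8c1e_lc.PC

open Finset Pool.Agent.Lib.MP_711ea9_lc

private theorem fin_comp (C k : ℕ) : ∃ K : ℕ, ∀ m m' a b : ℕ, m' ≤ (m + 2) ^ C → a ≤ (m + 2) ^ C →
    b ≤ (m' + 2) ^ k → a + b ≤ (m + 2) ^ K := by
  obtain ⟨K, hK⟩ : Pb fun m => (m + 2) ^ C + ((m + 2) ^ C + 2) ^ k :=
    (((Pb.id.add (Pb.const 2)).pow C)).add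
      (((((Pb.id.add (Pb.const 2)).pow C)).add (Pb.const 2)).pow k)
  refine ⟨K, fun m m' a b h1 h2 h3 => le_trans ?_ (hK m)⟩
  exact Nat.add_le_add h2 (h3.trans (Nat.pow_le_pow_left (by omega) k))

/-- The program `q` decides in polynomial time whether a 3-CNF formula with `m ≥ 1` clauses is
satisfiable: variable 0 is 1 at the end if it is, and 0 if it is not. -/
def DecidesSat (q : Cmd) : Prop :=
  ∃ k : ℕ, ∀ (m : ℕ) (φ : Formula m), 1 ≤ m →
    q.cost (formulaInput φ) ≤ (m + 2) ^ k ∧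
    ((∃ a, unsat φ a = 0) → (q.exec (formulaInput φ)).var 0 = 1) ∧
    ((¬ ∃ a, unsat φ a = 0) → (q.exec (formulaInput φ)).var 0 = 0)

/-- The gap-producing reduction of 3SAT to Dense Graph Partition, and its consequence for
approximation algorithms. -/
theorem gap_main : ∃ δ : ℝ, 0 < δ ∧
    (∃ (red : Cmd) (K : ℕ), ∀ (m : ℕ) (φ : Formula m), 1 ≤ m →
      ∃ (n : ℕ) (G : SimpleGraph (Fin n)), 1 ≤ n ∧ Sparse n G ∧
        ((∃ a, unsat φ a = 0) → OPT G = (n : ℝ) / 3) ∧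
        ((¬ ∃ a, unsat φ a = 0) → OPT G ≤ (1 - δ) * ((n : ℝ) / 3)) ∧
        red.exec (formulaInput φ) = graphInput G ∧ red.cost (formulaInput φ) ≤ (m + 2) ^ K) ∧
    ∀ (δ' : ℝ) (p : Cmd), δ' < δ → Approximates p Sparse δ' → ∃ q : Cmd, DecidesSat q := by
  obtain ⟨B, ε, p, C, hB, hε, h⟩ := pcp
  have : NeZero B := ⟨by omega⟩
  have hB0 : (0 : ℝ) < B := by exact_mod_cast hB
  refine ⟨ε / (2016 * B ^ 2), by positivity, ?_, ?_⟩
  · obtain ⟨red, C', hred⟩ := red_exists B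
    obtain ⟨K, hK⟩ := fin_comp C C'
    refine ⟨.seq p red, K, fun m φ hm => ?_⟩
    obtain ⟨m', φ', hm', hmC, hocc, hsat, hunsat, hexec, hcost⟩ := h m φ hm
    obtain ⟨r1, r2⟩ := hred m' φ' hm'
    have hn : ((6 * m' * (6 * B + 1) : ℕ) : ℝ) / 3 = 2 * (m' : ℝ) * (6 * B + 1) := by
      push_cast
      ring
    refine ⟨6 * m' * (6 * B + 1), numGraph B φ', Nat.succ_le_of_lt (by positivity),
      ⟨numGraph_colorable φ', numGraph_degree φ' hocc⟩, fun hs => ?_, fun hu => ?_, ?_, ?_⟩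
    · rw [hn]
      exact (numGraph_gap φ' hm' hocc hε
        (exists_density_eq_OPT (numGraph B φ')).choose).1 (hsat hs)
    · obtain ⟨P, hP⟩ := exists_density_eq_OPT (numGraph B φ')
      rw [hn, ← hP]
      exact (numGraph_gap φ' hm' hocc hε P).2 (hunsat fun a ha => hu ⟨a, ha⟩)
    · show red.exec (p.exec (formulaInput φ)) = _
      rw [hexec, r1]
    · show p.cost (formulaInput φ) + red.cost (p.exec (formulaInput φ)) ≤ _
      rw [hexec]
      exact hK m m' _ _ hmC hcost r2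
  · intro δ' r hδ hr
    obtain ⟨q, k, hk⟩ := decides_of_approximates hB hε hδ hr
    obtain ⟨K, hK⟩ := fin_comp C k
    refine ⟨.seq p q, K, fun m φ hm => ?_⟩
    obtain ⟨m', φ', hm', hmC, hocc, hsat, hunsat, hexec, hcost⟩ := h m φ hm
    obtain ⟨k1, k2, k3⟩ := hk m' φ' hm' hocc
    refine ⟨?_, fun hs => ?_, fun hu => ?_⟩
    · show p.cost (formulaInput φ) + q.cost (p.exec (formulaInput φ)) ≤ _
      rw [hexec]
      exact hK m m' _ _ hmC hcost k1
    · show (q.exec (p.exec (formulaInput φ))).var 0 = 1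
      rw [hexec]
      exact k2 (hsat hs)
    · show (q.exec (p.exec (formulaInput φ))).var 0 = 0
      rw [hexec]
      exact k3 (hunsat fun a ha => hu ⟨a, ha⟩)

/-- There is no approximation scheme, unless 3SAT is in polynomial time. -/
theorem sat_of_PTAS (h : HasPTAS) : ∃ q : Cmd, DecidesSat q := by
  obtain ⟨δ, hδ, _, h'⟩ := gap_main
  obtain ⟨p, hp⟩ := h (δ / 2) (by positivity)
  exact h' _ p (half_lt_self hδ) (hp.mono fun _ _ _ => trivial)

end Pool.Agent.Lib.MP_0b8c1e_lc.PC
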