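import Pool.Agent.Lib.MP_0b8c1e_lc.Mg.G006
import Pool.Agent.Lib.MP_0b8c1e_lc.Mg.G003
import Pool.Agent.Lib.MP_0b8c1e_lc.Mg.G004
import Pool.Agent.Lib.MP_0b8c1e_lc.Mg.G002
import Pool.Agent.Lib.MP_0b8c1e_lc.Mg.G011

set_option autoImplicit false

namespace Pool.Agent.Lib.MP_0b8c1e_lc.PC

open Finset DS Pool.Agent.Lib.MP_711ea9_lc Pool.Agent.Lib.MP_711ea9_lc.FH

private theorem Main_sq (m : ℕ) : m * m ≤ 2 ^ (m + 1) := by
  induction m with
  | zero => norm_num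
  | succ m ih =>
    rcases Nat.lt_or_ge m 3 with h | h
    · interval_cases m <;> norm_num
    · have h1 : 2 ^ (m + 1 + 1) = 2 * 2 ^ (m + 1) := by ring
      nlinarith

private theorem Main_size (m : ℕ) : Nat.size (162 * m * m) ≤ m + 10 := by
  rw [Nat.size_le]
  have h1 := Main_sq m
  have h2 : 2 ^ (m + 10) = 512 * 2 ^ (m + 1) := by
    rw [show m + 10 = 9 + (m + 1) by ring, pow_add]
    norm_num
  have h3 : 0 < 2 ^ (m + 1) := by positivity
  nlinarith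

private theorem Main_lin {m : ℕ} : m + 162 * m * m + 2 ≤ (m + 2) ^ 10 := by
  have h1 : 2 ^ 8 ≤ (m + 2) ^ 8 := Nat.pow_le_pow_left (by omega) 8
  have h2 : (m + 2) ^ 10 = (m + 2) ^ 8 * ((m + 2) * (m + 2)) := by ring
  have h3 : 2 ^ 8 * ((m + 2) * (m + 2)) ≤ (m + 2) ^ 8 * ((m + 2) * (m + 2)) :=
    Nat.mul_le_mul_right _ h1
  nlinarith

private theorem Main_four {m : ℕ} : 4 ≤ (m + 2) ^ 2 := by
  have h1 : 2 ^ 2 ≤ (m + 2) ^ 2 := Nat.pow_le_pow_left (by omega) 2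
  omega

private theorem Main_bd {a m : ℕ} (h : 1 ≤ a) : 6 * m + a + 1 ≤ a * (6 * m + 2) := by nlinarith

private theorem Main_two {m e : ℕ} : 2 ≤ (m + 2) ^ (e + 10) := by
  calc 2 ≤ m + 2 := by omega
    _ = (m + 2) ^ 1 := (pow_one _).symm
    _ ≤ _ := Nat.pow_le_pow_right (by omega) (by omega)

private theorem Main_real {m K : ℕ} (h : 162 * m * m < K) : (162 * (m : ℝ) ^ 2) ≤ K := by
  have h1 : ((162 * m * m : ℕ) : ℝ) < (K : ℝ) := by exact_mod_cast h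
  push_cast at h1
  nlinarith

private theorem Main_eps : eps1 Lab ≤ 1 := by
  unfold eps1
  have h4 : 0 < Fintype.card Lab := Fintype.card_pos
  generalize Fintype.card Lab = s at h4
  have h5 : (1 : ℝ) ≤ s := by exact_mod_cast h4
  rw [div_le_one (by positivity)]
  have h6 : (1 : ℝ) ≤ (s : ℝ) ^ 4 := one_le_pow₀ h5
  nlinarith

private theorem Main_const {m : ℕ} (a : ℕ) : a ≤ (m + 2) ^ a :=
  (Nat.lt_two_pow_self (n := a)).le.trans (Nat.pow_le_pow_left (by omega) a)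

private theorem Main_bdd {m : ℕ} (φ : Formula m) (hm : 1 ≤ m) : Bdd (formulaInput φ) (6 * m) := by
  have h0 : 6 * m < 2 ^ (6 * m) := Nat.lt_two_pow_self
  constructor
  · intro x
    simp only [formulaInput]
    split_ifs
    · omega
    · positivity
  · intro a j
    simp only [formulaInput]
    split_ifs
    · exact ((code_le φ j).1).trans_lt h0
    · positivity

/-- TASK M1. The PCP theorem, in the form of a gap-producing polynomial-time reduction of 3SAT to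
3SAT with bounded occurrences.

Proof. `exists_kit Idx Lab`; codings `cI : Cod Idx 162`, `cR`, `cP` by `exists_cod` (obtain the
cardinalities `Kc`, `Pt` as opaque numbers). `p = init ; loop ; final` with `C₀` such that
`Nat.size (162 m m) ≤ m + C₀` for all `m ≥ 1`. After the loop `r = 0`... the graph has
`Gap (min (2 ^ size r₀ / (162 m ^ 2)) eps1)` with `r₀ = 162 m m < 2 ^ size r₀` (`Nat.lt_size_self`), so
`Gap (min 1 eps1) = Gap eps1`, and the last formula has `ε = eps1 / (36 Pt)`. Cost: `Cmd.bound` with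
the steps of the three parts (`Cmd.steps` of `seq` is the sum). -/
theorem pcp : ∃ (B : ℕ) (ε : ℝ) (p : Cmd) (C : ℕ), 1 ≤ B ∧ 0 < ε ∧
    ∀ (m : ℕ) (φ : Formula m), 1 ≤ m → ∃ (m' : ℕ) (φ' : Formula m'), 1 ≤ m' ∧
      m' ≤ (m + 2) ^ C ∧ (∀ x, #(occurrences φ' x) ≤ B) ∧
      ((∃ a, unsat φ a = 0) → ∃ a, unsat φ' a = 0) ∧
      ((∀ a, unsat φ a ≠ 0) → ∀ a, ε * m' ≤ unsat φ' a) ∧
      p.exec (formulaInput φ) = formulaInput φ' ∧ p.cost (formulaInput φ) ≤ (m + 2) ^ C := by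
  classical
  obtain ⟨κ, c, hκ, hc, ⟨E⟩⟩ := exists_kit Idx Lab
  have hI : Fintype.card Idx = 162 := by
    simp [Idx]
  obtain ⟨cI⟩ := exists_cod hI
  obtain ⟨Kc, hKc⟩ : ∃ K, Fintype.card (Lab → Lab → Bool) = K := ⟨_, rfl⟩
  obtain ⟨Pt, hPt⟩ : ∃ K, Fintype.card (Lab × Lab) = K := ⟨_, rfl⟩
  have hK1 : 1 ≤ Kc := by
    rw [← hKc]
    exact Fintype.card_pos
  have hP1 : 1 ≤ Pt := by
    rw [← hPt]
    exact Fintype.card_pos
  obtain ⟨cR⟩ := exists_cod hKc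
  obtain ⟨cP⟩ := exists_cod hPt
  clear hKc hPt
  obtain ⟨p1, C1, h1⟩ := init_prog (D := 162) (by norm_num) hK1 cI cR
  obtain ⟨p2, C2, h2⟩ := loop_prog hκ hc (D := 162) (by norm_num) hK1 E cI cR 10
  obtain ⟨p3, C3, h3⟩ := final_prog (D := 162) (by norm_num) hK1 hP1 cI cR cP
  have heps : 0 < eps1 Lab := by
    unfold eps1
    have h4 : 0 < Fintype.card Lab := Fintype.card_pos
    generalize Fintype.card Lab = s at h4
    have h5 : (0 : ℝ) < s := by exact_mod_cast h4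
    positivity
  generalize heq : eps1 Lab = ε₁ at heps
  have hPr : (0 : ℝ) < Pt := by exact_mod_cast hP1
  -- exponents
  obtain ⟨D1, hD1⟩ : ∃ D1, D1 = 10 * C2 + 12 := ⟨_, rfl⟩
  obtain ⟨D2, hD2⟩ : ∃ D2, D2 = C1 + 10 * C2 + D1 * C3 + 2 := ⟨_, rfl⟩
  obtain ⟨D3, hD3⟩ : ∃ D3, D3 = 2 * D2 + 8 := ⟨_, rfl⟩
  obtain ⟨D4, hD4⟩ : ∃ D4, D4 = 2 * (10 * C2) + 14 + Pt := ⟨_, rfl⟩
  refine ⟨6 + 2 * 162 * (36 * Pt) * 3, ε₁ / (36 * Pt), .seq p1 (.seq p2 p3), D3 + D4, by omega,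
    by positivity, ?_⟩
  intro m φ hm
  obtain ⟨e1, s1⟩ := h1 m φ hm
  obtain ⟨e2, s2, n2⟩ := h2 ⟨m, 162 * m * m, G0 φ⟩ (G0_inv φ) hm
  obtain ⟨i1, i2, i3, i4, i5, i6⟩ := iterate_spec hκ hc E (m + 10) ⟨m, 162 * m * m, G0 φ⟩
    (G0_inv φ) hm
  have hsz := Main_size m
  simp only at e2 s2 n2 i1 i2 i3 i4 i5 i6
  generalize (St.next κ E)^[m + 10] ⟨m, 162 * m * m, G0 φ⟩ = s at *
  obtain ⟨e3, s3⟩ := h3 s.N s.r s.G i2
  have hNle : s.N ≤ (m + 2) ^ (10 * C2) := by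
    rw [pow_mul]
    exact n2.trans (Nat.pow_le_pow_left Main_lin _)
  have hbase : 1 ≤ m + 2 := by omega
  have hmono : ∀ {a b : ℕ}, a ≤ b → (m + 2) ^ a ≤ (m + 2) ^ b := fun h =>
    Nat.pow_le_pow_right hbase h
  refine ⟨s.N * s.N * 162 * Pt * 36, finF cI cP s.G, ?_, ?_, ?_, ?_, ?_, ?_, ?_⟩
  · have : 0 < s.N * s.N * 162 * Pt * 36 := by positivity
    omega
  · have hc1 : 162 * 36 ≤ (m + 2) ^ 14 :=
      le_trans (by norm_num) (Nat.pow_le_pow_left (show 2 ≤ m + 2 by omega) 14)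
    have hc2 : Pt ≤ (m + 2) ^ Pt := Main_const Pt
    calc s.N * s.N * 162 * Pt * 36 = (s.N * s.N) * (162 * 36) * Pt := by ring
      _ ≤ ((m + 2) ^ (10 * C2) * (m + 2) ^ (10 * C2)) * (m + 2) ^ 14 * (m + 2) ^ Pt :=
        Nat.mul_le_mul (Nat.mul_le_mul (Nat.mul_le_mul hNle hNle) hc1) hc2
      _ = (m + 2) ^ D4 := by
        rw [hD4, two_mul, pow_add, pow_add, pow_add]
      _ ≤ (m + 2) ^ (D3 + D4) := hmono (by omega)
  · exact finF_occ (by norm_num) hP1 cI cP i1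
  · intro h
    exact finF_sat (by norm_num) hP1 cI cP (i5 (G0_sat φ h))
  · intro h a
    have hg := i6 hsz _ (G0_gap hm φ h)
    have hmr : (1 : ℝ) ≤ m := by exact_mod_cast hm
    have hlt : 162 * m * m < 2 ^ Nat.size (162 * m * m) := Nat.lt_size_self _
    have hlt' : (162 * (m : ℝ) ^ 2) ≤ 2 ^ Nat.size (162 * m * m) := by
      have h7 := Main_real hlt
      push_cast at h7
      exact h7
    have h7 : (1 : ℝ) ≤ 2 ^ Nat.size (162 * m * m) * (1 / (162 * (m : ℝ) ^ 2)) := by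
      rw [mul_one_div, le_div_iff₀ (by positivity)]
      linarith
    have h8 : eps1 Lab ≤ 1 := Main_eps
    rw [min_eq_right (h8.trans h7), heq] at hg
    exact finF_gap rfl hP1 cI cP hg a
  · show p3.exec (p2.exec (p1.exec (formulaInput φ))) = _
    rw [e1, e2, e3]
  · have hst : (Cmd.seq p1 (.seq p2 p3)).steps (formulaInput φ) ≤ (m + 2) ^ D2 := by
      have hh : (Cmd.seq p1 (.seq p2 p3)).steps (formulaInput φ) = p1.steps (formulaInput φ) +
        (p2.steps (p1.exec (formulaInput φ)) +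
          p3.steps (p2.exec (p1.exec (formulaInput φ)))) := rfl
      rw [hh, e1, e2]
      have t2 : p2.steps (cl m (arrOf cI cR (162 * m * m) (G0 φ))) ≤ (m + 2) ^ (10 * C2) := by
        rw [pow_mul]
        exact s2.trans (Nat.pow_le_pow_left Main_lin _)
      have t3 : p3.steps (cl s.N (arrOf cI cR s.r s.G)) ≤ (m + 2) ^ (D1 * C3) := by
        rw [pow_mul]
        refine s3.trans (Nat.pow_le_pow_left ?_ _)
        have u1 : s.r ≤ (m + 2) ^ 10 := i3.trans ((by omega : 162 * m * m ≤ m + 162 * m * m + 2).trans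
          Main_lin)
        have u2 : (m + 2) ^ (10 * C2) ≤ (m + 2) ^ (10 * C2 + 10) := hmono (by omega)
        have u3 : (m + 2) ^ 10 ≤ (m + 2) ^ (10 * C2 + 10) := hmono (by omega)
        have u4 : 2 ≤ (m + 2) ^ (10 * C2 + 10) := Main_two
        have u5 : 4 ≤ (m + 2) ^ 2 := Main_four
        calc s.N + s.r + 2 ≤ (m + 2) ^ (10 * C2 + 10) * 4 := by omega
          _ ≤ (m + 2) ^ (10 * C2 + 10) * (m + 2) ^ 2 := Nat.mul_le_mul_left _ u5
          _ = (m + 2) ^ D1 := by rw [hD1, ← pow_add]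
      have v1 : (m + 2) ^ C1 ≤ (m + 2) ^ (C1 + 10 * C2 + D1 * C3) := hmono (by omega)
      have v2 : (m + 2) ^ (10 * C2) ≤ (m + 2) ^ (C1 + 10 * C2 + D1 * C3) := hmono (by omega)
      have v3 : (m + 2) ^ (D1 * C3) ≤ (m + 2) ^ (C1 + 10 * C2 + D1 * C3) := hmono (by omega)
      have v4 : 4 ≤ (m + 2) ^ 2 := Main_four
      calc _ ≤ (m + 2) ^ (C1 + 10 * C2 + D1 * C3) * 4 := by omega
        _ ≤ (m + 2) ^ (C1 + 10 * C2 + D1 * C3) * (m + 2) ^ 2 := Nat.mul_le_mul_left _ v4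
        _ = (m + 2) ^ D2 := by rw [hD2, ← pow_add]
    refine ((Cmd.bound _ (Main_bdd φ hm)).2).trans ?_
    have w1 : 6 * m + (m + 2) ^ D2 + 1 ≤ (m + 2) ^ (D2 + 8) := by
      have w2 : 1 ≤ (m + 2) ^ D2 := Nat.one_le_pow _ _ hbase
      have w3 : 6 * m + 2 ≤ (m + 2) ^ 8 := by
        have : 2 ^ 7 ≤ (m + 2) ^ 7 := Nat.pow_le_pow_left (by omega) 7
        calc 6 * m + 2 ≤ 2 ^ 7 * (m + 2) := by omega
          _ ≤ (m + 2) ^ 7 * (m + 2) := Nat.mul_le_mul_right _ this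
          _ = (m + 2) ^ 8 := by ring
      calc 6 * m + (m + 2) ^ D2 + 1 ≤ (m + 2) ^ D2 * (6 * m + 2) := Main_bd w2
        _ ≤ (m + 2) ^ D2 * (m + 2) ^ 8 := Nat.mul_le_mul_left _ w3
        _ = _ := by rw [← pow_add]
    calc _ ≤ (m + 2) ^ D2 * (6 * m + (m + 2) ^ D2 + 1) :=
          Nat.mul_le_mul hst (by omega)
      _ ≤ (m + 2) ^ D2 * (m + 2) ^ (D2 + 8) := Nat.mul_le_mul_left _ w1
      _ = (m + 2) ^ D3 := by
        rw [hD3, ← pow_add]
        congr 1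
        ring
      _ ≤ _ := hmono (by omega)

end Pool.Agent.Lib.MP_0b8c1e_lc.PC
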